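import Pool.Agent.ATP.Stmts

/-!
# Squad ATP, row PCD: the defect group of the block of `C(Q)`
-/

open scoped BigOperators

noncomputable section

namespace Pool.Agent.PP.TP.H15

open Pool.Agent.Helper51_AWC Pool.Agent.Helper79_WRA Pool.Agent.PP Pool.Agent.PP.KF
open Pool.Agent.PP.K9 Pool.Agent.PP.K9.H97 Pool.Agent.PP.H75 Pool.Agent.PP.T3 Pool.Agent.PP.T2
open Pool.Agent.PP.TB

section

variable {G : Type} [Group G]

theorem mem_cent_sup (S Q : Subgroup G) (t : G) :
    t ∈ Subgroup.centralizer ((S ⊔ Q : Subgroup G) : Set G) ↔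
      t ∈ Subgroup.centralizer (S : Set G) ∧ t ∈ Subgroup.centralizer (Q : Set G) := by
  constructor
  · intro h
    rw [Subgroup.mem_centralizer_iff] at h
    exact ⟨Subgroup.mem_centralizer_iff.2 fun s hs => h s (Subgroup.mem_sup_left hs),
      Subgroup.mem_centralizer_iff.2 fun s hs => h s (Subgroup.mem_sup_right hs)⟩
  · rintro ⟨h1, h2⟩
    have h3 : S ⊔ Q ≤ Subgroup.centralizer ({t} : Set G) := by
      apply sup_le
      · intro s hs
        rw [Subgroup.mem_centralizer_iff]
        intro x hx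
        rw [Set.mem_singleton_iff.1 hx]
        exact (Subgroup.mem_centralizer_iff.1 h1 s hs).symm
      · intro s hs
        rw [Subgroup.mem_centralizer_iff]
        intro x hx
        rw [Set.mem_singleton_iff.1 hx]
        exact (Subgroup.mem_centralizer_iff.1 h2 s hs).symm
    rw [Subgroup.mem_centralizer_iff]
    intro s hs
    exact (Subgroup.mem_centralizer_iff.1 (h3 hs) t rfl).symm

theorem br_sup [Finite G] {F : Type} [Field F] (S Q : Subgroup G) (b : G → F)
    (hb : ∀ x, x ∉ Subgroup.centralizer (Q : Set G) → b x = 0) : br (S ⊔ Q) b = br S b := by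
  funext t
  by_cases h1 : t ∈ Subgroup.centralizer (S : Set G)
  · by_cases h2 : t ∈ Subgroup.centralizer (Q : Set G)
    · rw [br_in b h1, br_in b ((mem_cent_sup S Q t).2 ⟨h1, h2⟩)]
    · rw [br_in b h1, br_out b (fun h => h2 ((mem_cent_sup S Q t).1 h).2), hb t h2]
  · rw [br_out b h1, br_out b (fun h => h1 ((mem_cent_sup S Q t).1 h).1)]

theorem cent_le_norm (Q : Subgroup G) :
    Subgroup.centralizer (Q : Set G) ≤ Subgroup.normalizer (Q : Set G) := by
  intro x hx
  rw [Subgroup.mem_normalizer_iff]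
  intro q
  rw [Subgroup.mem_centralizer_iff] at hx
  constructor
  · intro hq
    have : x * q * x⁻¹ = q := by rw [← hx q hq]; group
    rw [this]; exact hq
  · intro hq
    have h2 := hx _ hq
    have h3 : x * q * x⁻¹ = q := by
      have : x * q * x⁻¹ * x = x * (x * q * x⁻¹) := h2
      have h4 : x * q = x * (x * q * x⁻¹) := by
        rw [← this]; group
      exact (mul_left_cancel h4).symm
    rw [← h3]; exact hq

end

theorem pcd (hpin : PinStmt) (hpun : PunStmt) (hpcj : PcjStmt) : PcdStmt := by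
  intro ℓ _ F _ hF G _ _ Q S b b₃ hQ hS hT hb₃ hu
  have hSp : IsPGroup ℓ S := by
    have h1 := hT.pg
    have h2 := h1.map (Subgroup.centralizer (Q : Set G)).subtype
    rwa [Subgroup.map_subgroupOf_eq_of_le hS] at h2
  have hSN : S ≤ Subgroup.normalizer (Q : Set G) := hS.trans (cent_le_norm Q)
  have hpg : ∀ S' : Subgroup G, IsPGroup ℓ S' → S' ≤ Subgroup.centralizer (Q : Set G) →
      IsPGroup ℓ (S' ⊔ Q : Subgroup G) := fun S' h1 h2 =>
    IsPGroup.to_sup_of_normal_right' h1 hQ.pg (h2.trans (cent_le_norm Q))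
  have hP : Pq ℓ (S ⊔ Q) b₃ := ⟨hpg S hSp hS, hb₃⟩
  have hN : Nl Q b (S ⊔ Q) b₃ := by
    refine ⟨le_sup_right, sup_le hSN Subgroup.le_normalizer, ?_, ?_⟩
    · intro x hx
      refine (hpcj ℓ F G x).2.2.2 Q b hQ ?_
      have h1 : S ⊔ Q ≤ Q ⊔ Subgroup.centralizer (Q : Set G) :=
        sup_le (hS.trans le_sup_right) le_sup_left
      exact h1 hx
    · rw [br_sup S Q b hQ.blk.supp]
      exact hu
  refine ⟨hP, hN, ?_⟩
  intro D γ hD hle
  have hSD : S ≤ D := le_sup_left.trans hle.sub
  have hQD : Q ≤ D := le_sup_right.trans hle.sub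
  have hSS : S ≤ D ⊓ Subgroup.centralizer (Q : Set G) := le_inf hSD hS
  have hcard : Nat.card (D ⊓ Subgroup.centralizer (Q : Set G) : Subgroup G) ≤ Nat.card S := by
    have hS'p : IsPGroup ℓ (D ⊓ Subgroup.centralizer (Q : Set G) : Subgroup G) :=
      hD.pg.to_le inf_le_left
    obtain ⟨s, hs, hs1, hs2⟩ := hpin ℓ F hF G D γ hD (S ⊔ Q) b₃ hP hle
      ((D ⊓ Subgroup.centralizer (Q : Set G)) ⊔ Q) (sup_le_sup_right hSS Q)
      (sup_le inf_le_left hQD)
    have hQs : Le ℓ Q b ((D ⊓ Subgroup.centralizer (Q : Set G)) ⊔ Q) s :=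
      (Le.one hQ hP hN).trans hs1
    have hNs : Nl Q b ((D ⊓ Subgroup.centralizer (Q : Set G)) ⊔ Q) s :=
      (hpun ℓ F hF G _ s hs Q b hQ hQs).2
        (sup_le (inf_le_right.trans (cent_le_norm Q)) Subgroup.le_normalizer)
    have hgd : ∃ t, t ∈ Subgroup.centralizer
        ((D ⊓ Subgroup.centralizer (Q : Set G) : Subgroup G) : Set G) ∧
        t ∈ Subgroup.centralizer (Q : Set G) ∧ b t ≠ 0 := by
      by_contra hcon
      push Not at hcon
      have h0 : br ((D ⊓ Subgroup.centralizer (Q : Set G)) ⊔ Q) b = 0 := by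
        rw [br_sup _ Q b hQ.blk.supp]
        funext t
        by_cases ht : t ∈ Subgroup.centralizer
            ((D ⊓ Subgroup.centralizer (Q : Set G) : Subgroup G) : Set G)
        · rw [br_in b ht]
          by_cases ht2 : t ∈ Subgroup.centralizer (Q : Set G)
          · exact hcon t ht ht2
          · exact hQ.blk.supp t ht2
        · rw [br_out b ht]; rfl
      have h1 := hNs.und
      rw [h0] at h1
      apply hs.blk.ne
      rw [← h1]
      funext t
      unfold mulF
      simp
    obtain ⟨t, ht1, ht2, ht3⟩ := hgd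
    have h2 := hT.mx ((D ⊓ Subgroup.centralizer (Q : Set G)).subgroupOf
      (Subgroup.centralizer (Q : Set G))) (by
        exact hS'p.comap_of_injective _ (Subgroup.subtype_injective _)) (by
        refine ⟨⟨t, ht2⟩, ?_, ht3⟩
        rw [Subgroup.mem_centralizer_iff] at ht1 ⊢
        intro y hy
        apply Subtype.ext
        exact ht1 y (Subgroup.mem_subgroupOf.1 hy))
    rw [Nat.card_congr (Subgroup.subgroupOfEquivOfLe inf_le_right).toEquiv,
      Nat.card_congr (Subgroup.subgroupOfEquivOfLe hS).toEquiv] at h2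
    exact h2
  have heq : D ⊓ Subgroup.centralizer (Q : Set G) = S :=
    (Subgroup.eq_of_le_of_card_ge hSS hcard).symm
  refine ⟨heq, ?_⟩
  have h3 : Zc D ≤ S := by
    rw [← heq]
    exact inf_le_inf_left D (Subgroup.centralizer_le (SetLike.coe_subset_coe.2 hQD))
  exact le_inf h3 (inf_le_right.trans (Subgroup.centralizer_le (SetLike.coe_subset_coe.2 hSD)))

end Pool.Agent.PP.TP.H15
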